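import Pool.Agent.Lib.HowF.Amalg

/-!
# MP_be5808_al: relators whose coefficients commute modulo proper normal subgroups
-/

set_option autoImplicit false

open Monoid (Coprod)
open Monoid.Coprod (inl inr fst snd)

namespace Pool.Agent.Results.MP_be5808_al.CommutingCoefficients

/-- Let `w` be an element of `G₁ * G₂ * G₃` all of whose letters from `Gᵢ` lie in a subgroup `Hᵢ` which is
commutative modulo a normal subgroup `Nᵢ` of `Gᵢ`. If the image of `w` in `Gᵢ` is not in `Nᵢ` (`i = 1, 2, 3`),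
then the normal closure of `w` meets `Gᵢ` inside `Nᵢ`. If the `Nᵢ` are proper, the normal closure of `w` is
never the whole free product. -/
theorem result {G₁ G₂ G₃ : Type} [Group G₁] [Group G₂] [Group G₃]
    (H₁ N₁ : Subgroup G₁) (H₂ N₂ : Subgroup G₂) (H₃ N₃ : Subgroup G₃)
    [N₁.Normal] [N₂.Normal] [N₃.Normal]
    (c₁ : ∀ x ∈ H₁, ∀ y ∈ H₁, x * y * x⁻¹ * y⁻¹ ∈ N₁)
    (c₂ : ∀ x ∈ H₂, ∀ y ∈ H₂, x * y * x⁻¹ * y⁻¹ ∈ N₂)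
    (c₃ : ∀ x ∈ H₃, ∀ y ∈ H₃, x * y * x⁻¹ * y⁻¹ ∈ N₃)
    (w : Coprod G₁ (Coprod G₂ G₃))
    (hw : w ∈ H₁.map (inl : G₁ →* Coprod G₁ (Coprod G₂ G₃)) ⊔
      (H₂.map ((inr : Coprod G₂ G₃ →* Coprod G₁ (Coprod G₂ G₃)).comp inl) ⊔
        H₃.map ((inr : Coprod G₂ G₃ →* Coprod G₁ (Coprod G₂ G₃)).comp inr))) :
    (fst w ∉ N₁ → fst (snd w) ∉ N₂ → snd (snd w) ∉ N₃ →
      (∀ g : G₁, inl g ∈ Subgroup.normalClosure ({w} : Set (Coprod G₁ (Coprod G₂ G₃))) →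
        g ∈ N₁) ∧
      (∀ g : G₂, inr (inl g) ∈ Subgroup.normalClosure ({w} : Set (Coprod G₁ (Coprod G₂ G₃))) →
        g ∈ N₂) ∧
      (∀ g : G₃, inr (inr g) ∈ Subgroup.normalClosure ({w} : Set (Coprod G₁ (Coprod G₂ G₃))) →
        g ∈ N₃)) ∧
    (N₁ ≠ ⊤ → N₂ ≠ ⊤ → N₃ ≠ ⊤ →
      Subgroup.normalClosure ({w} : Set (Coprod G₁ (Coprod G₂ G₃))) ≠ ⊤) :=
  ⟨fun h1 h2 h3 => Lib.HowF.frei_mod H₁ N₁ H₂ N₂ H₃ N₃ c₁ c₂ c₃ w hw h1 h2 h3,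
    fun p₁ p₂ p₃ => Lib.HowF.weight H₁ N₁ H₂ N₂ H₃ N₃ c₁ c₂ c₃ p₁ p₂ p₃ w hw⟩

end Pool.Agent.Results.MP_be5808_al.CommutingCoefficients
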